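import Pool.Agent.Helper61.FN.GoalsD

/-! # Packet FN-SQH (MP_06d934_gt): square roots of hyperreal numbers -/

set_option autoImplicit false

namespace Pool.Agent.Helper62.FN

open Pool.Agent.Helper61.FN Filter

theorem hyperreal_sqrt (a : Hyperreal) (ha : 0 < a) : ∃ b : Hyperreal, b * b = a := by
  obtain ⟨f, rfl⟩ := Hyperreal.ofSeq_surjective a
  have h0 : ∀ᶠ n in (hyperfilter ℕ : Filter ℕ), (0 : ℝ) < f n := by
    have h1 : Hyperreal.ofSeq (fun _ => (0 : ℝ)) < Hyperreal.ofSeq f := ha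
    exact Hyperreal.ofSeq_lt_ofSeq.1 h1
  refine ⟨Hyperreal.ofSeq fun n => Real.sqrt (f n), ?_⟩
  refine Quotient.sound ?_
  filter_upwards [h0] with n hn
  exact Real.mul_self_sqrt hn.le

theorem goalSQH : G_SQH := fun a ha => hyperreal_sqrt a ha

end Pool.Agent.Helper62.FN
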